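import Pool.Agent.TMX.Stmts

/-!
# Row EXM of squad TMX: existence and comparison of the centred maximal function on a path
-/

set_option autoImplicit false

open Finset Pool.Agent.Helper51_Max

namespace Pool.Agent.TMX.H96

lemma le_of_mem_I {N v r i : ℕ} (h : i ∈ I N v r) : i ≤ N := by
  simp only [I, mem_Icc] at h
  omega

/-- for `v ≤ N ≤ r` the ball is the whole path -/
lemma I_big {N v r : ℕ} (hv : v ≤ N) (hr : N ≤ r) : I N v r = I N v N := by
  ext i
  simp only [I, mem_Icc]
  omega

lemma card_pos_real {N v : ℕ} (r : ℕ) (hv : v ≤ N) : (0 : ℝ) < ((I N v r).card : ℝ) := by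
  exact_mod_cast card_I_pos r hv

/-- the largest average over the balls around `v` -/
lemma exists_best (N : ℕ) (T : ℕ → ℝ) (v : ℕ) (hv : v ≤ N) :
    ∃ m : ℝ, (∀ r, ∑ i ∈ I N v r, T i ≤ m * ((I N v r).card : ℝ)) ∧
      ∃ r, m * ((I N v r).card : ℝ) = ∑ i ∈ I N v r, T i := by
  obtain ⟨r0, hr0, hmax⟩ := Finset.exists_max_image (range (N + 1))
    (fun r => (∑ i ∈ I N v r, T i) / ((I N v r).card : ℝ)) ⟨0, by simp⟩
  refine ⟨(∑ i ∈ I N v r0, T i) / ((I N v r0).card : ℝ), ?_, r0, ?_⟩
  · intro r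
    have key : ∀ s, s ≤ N → ∑ i ∈ I N v s, T i ≤
        (∑ i ∈ I N v r0, T i) / ((I N v r0).card : ℝ) * ((I N v s).card : ℝ) := by
      intro s hs
      have h1 := hmax s (by simp; omega)
      have h2 := card_pos_real (N := N) s hv
      rwa [div_le_iff₀ h2] at h1
    by_cases hr : r ≤ N
    · exact key r hr
    · have h3 : I N v r = I N v N := I_big hv (by omega)
      rw [h3]
      exact key N le_rfl
  · have h2 := card_pos_real (N := N) r0 hv
    field_simp

theorem exM : ExM := by
  constructor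
  · intro N T hT
    have h : ∀ v, ∃ m : ℝ, v ≤ N → (∀ r, ∑ i ∈ I N v r, T i ≤ m * ((I N v r).card : ℝ)) ∧
      ∃ r, m * ((I N v r).card : ℝ) = ∑ i ∈ I N v r, T i := by
      intro v
      by_cases hv : v ≤ N
      · obtain ⟨m, hm⟩ := exists_best N T v hv
        exact ⟨m, fun _ => hm⟩
      · exact ⟨0, fun h => absurd h hv⟩
    choose M hM using h
    exact ⟨M, hT, fun v hv => (hM v hv).1, fun v hv => (hM v hv).2⟩
  · intro N g M T D ε hg hT hc v hv
    constructor
    · obtain ⟨r, hr⟩ := hT.attained v hv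
      have h1 := hg.le v hv r
      have h2 : ∑ i ∈ I N v r, T i ≤ ∑ i ∈ I N v r, g i :=
        sum_le_sum fun i hi => (hc i (le_of_mem_I hi)).1
      have h3 := card_pos_real (N := N) r hv
      have h4 : D v * ((I N v r).card : ℝ) ≤ M v * ((I N v r).card : ℝ) := by linarith
      exact le_of_mul_le_mul_right h4 h3
    · obtain ⟨r, hr⟩ := hg.attained v hv
      have h1 := hT.le v hv r
      have h2 : ∑ i ∈ I N v r, g i ≤ ∑ i ∈ I N v r, (T i + ε) :=
        sum_le_sum fun i hi => (hc i (le_of_mem_I hi)).2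
      have h5 : ∑ i ∈ I N v r, (T i + ε) = ∑ i ∈ I N v r, T i + ((I N v r).card : ℝ) * ε := by
        rw [sum_add_distrib, sum_const, nsmul_eq_mul]
      have h3 := card_pos_real (N := N) r hv
      have h4 : M v * ((I N v r).card : ℝ) ≤ (D v + ε) * ((I N v r).card : ℝ) := by
        rw [hr, add_mul]
        linarith
      exact le_of_mul_le_mul_right h4 h3

end Pool.Agent.TMX.H96
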